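import Mathlib
import Pool.Agent.Run7.h955.OV.Iface

/-!
# Piece K: a concrete quotient of the Baumslag–Gersten group

`S` is the group of the maps `x ↦ 2^k x + y` of `ℚ`, the group `K` is the HNN extension of `S` with
stable letter `b` conjugating the translation by `1` to the doubling.
-/

set_option autoImplicit false

namespace Pool.Agent.Run7.h617.OV

open Pool.Agent.Run7.h955.OV HNNExtension

/-- the map `x ↦ 2^k x + y` of `ℚ` -/
@[ext] structure Af where
  k : ℤ
  y : ℚ

instance : Mul Af := ⟨fun g h => ⟨g.k + h.k, g.y + 2 ^ g.k * h.y⟩⟩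
instance : One Af := ⟨⟨0, 0⟩⟩
instance : Inv Af := ⟨fun g => ⟨-g.k, -(2 ^ (-g.k) * g.y)⟩⟩

@[simp] theorem mul_k (g h : Af) : (g * h).k = g.k + h.k := rfl
@[simp] theorem mul_y (g h : Af) : (g * h).y = g.y + 2 ^ g.k * h.y := rfl
@[simp] theorem one_k : (1 : Af).k = 0 := rfl
@[simp] theorem one_y : (1 : Af).y = 0 := rfl
@[simp] theorem inv_k (g : Af) : (g⁻¹).k = -g.k := rfl
@[simp] theorem inv_y (g : Af) : (g⁻¹).y = -(2 ^ (-g.k) * g.y) := rfl

instance : Group Af := Group.ofLeftAxioms
  (by
    intro g h l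
    ext
    · simp [add_assoc]
    · simp only [mul_k, mul_y]
      rw [zpow_add₀ (by norm_num)]
      ring)
  (by intro g; ext <;> simp)
  (by
    intro g
    ext
    · simp
    · simp)

/-- the translations by integers -/
def fa : Multiplicative ℤ →* Af where
  toFun n := ⟨0, (Multiplicative.toAdd n : ℤ)⟩
  map_one' := by ext <;> simp
  map_mul' m n := by ext <;> simp

/-- the multiplications by powers of two -/
def fq : Multiplicative ℤ →* Af where
  toFun n := ⟨Multiplicative.toAdd n, 0⟩
  map_one' := by ext <;> simp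
  map_mul' m n := by ext <;> simp

theorem fa_inj : Function.Injective fa := by
  intro m n h
  have := congrArg Af.y h
  simpa [fa] using this

theorem fq_inj : Function.Injective fq := by
  intro m n h
  have := congrArg Af.k h
  simpa [fq] using this

theorem mem_A {g : Af} : g ∈ fa.range ↔ g.k = 0 ∧ ∃ n : ℤ, g.y = n := by
  constructor
  · rintro ⟨n, rfl⟩
    exact ⟨rfl, Multiplicative.toAdd n, rfl⟩
  · rintro ⟨h1, n, h2⟩
    exact ⟨Multiplicative.ofAdd n, by ext <;> simp [fa, h1, h2]⟩

theorem mem_B {g : Af} : g ∈ fq.range ↔ g.y = 0 := by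
  constructor
  · rintro ⟨n, rfl⟩
    rfl
  · intro h
    exact ⟨Multiplicative.ofAdd g.k, by ext <;> simp [fq, h]⟩

/-- the isomorphism of the associated subgroups -/
noncomputable def ph : fa.range ≃* fq.range :=
  (MonoidHom.ofInjective fa_inj).symm.trans (MonoidHom.ofInjective fq_inj)

theorem ph_apply (n : ℤ) (h : fa (Multiplicative.ofAdd n) ∈ fa.range) :
    ((ph ⟨fa (Multiplicative.ofAdd n), h⟩ : fq.range) : Af) = fq (Multiplicative.ofAdd n) := by
  have e : (⟨fa (Multiplicative.ofAdd n), h⟩ : fa.range) =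
      MonoidHom.ofInjective fa_inj (Multiplicative.ofAdd n) := rfl
  rw [e, ph]
  simp
  rfl

abbrev KK : Type := HNNExtension Af fa.range fq.range ph

/-- the translation by one -/
def a0 : Af := ⟨0, 1⟩
/-- the doubling -/
def q0 : Af := ⟨1, 0⟩

noncomputable def aK : KK := of a0
noncomputable def bK : KK := t

theorem t_conj (n : ℤ) : (t : KK) * of (⟨0, n⟩ : Af) * t⁻¹ = of (⟨n, 0⟩ : Af) := by
  have h : fa (Multiplicative.ofAdd n) ∈ fa.range := ⟨_, rfl⟩
  have := equiv_eq_conj (φ := ph) (⟨fa (Multiplicative.ofAdd n), h⟩ : fa.range)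
  rw [ph_apply] at this
  exact this.symm

theorem conj_aK : bK * aK * bK⁻¹ = of q0 := by
  have := t_conj 1
  simpa [aK, bK, a0, q0] using this

/-- if `t g t⁻¹` is in the base group then `g` is a translation by an integer -/
theorem mem_of_conj {g : Af} (h : (t : KK) * of g * t⁻¹ ∈ (of.range : Subgroup KK)) :
    g ∈ fa.range := by
  by_contra hg
  let w : NormalWord.ReducedWord Af fa.range fq.range :=
    { head := 1
      toList := [(1, g), (-1, 1)]
      chain := by
        simp only [List.isChain_cons_cons, List.IsChain.singleton, and_true]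
        intro hh
        exact absurd hh hg }
  have h1 : w.prod ph = t * of g * t⁻¹ := by
    simp [w, NormalWord.ReducedWord.prod, mul_assoc]
  have h2 := ReducedWord.toList_eq_nil_of_mem_of_range (φ := ph) w (by rw [h1]; exact h)
  simp [w] at h2


theorem of_inj {g h : Af} (e : (of g : KK) = of h) : g = h := of_injective (φ := ph) e

/-- multiply the last letter of a list by `s` -/
def app (s : Af) : List (ℤˣ × Af) → List (ℤˣ × Af)
  | [] => []
  | [x] => [(x.1, x.2 * s)]
  | x :: y :: l => x :: app s (y :: l)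

/-- the condition of a reduced word -/
def RR (x y : ℤˣ × Af) : Prop :=
  x.2 ∈ toSubgroup (fa.range) (fq.range) x.1 → x.1 = y.1

theorem app_head (s : Af) (x : ℤˣ × Af) (l : List (ℤˣ × Af)) :
    ∃ y l', app s (x :: l) = y :: l' ∧ y.1 = x.1 := by
  cases l with
  | nil => exact ⟨_, _, rfl, rfl⟩
  | cons z l => exact ⟨_, _, rfl, rfl⟩

theorem app_chain (s : Af) : ∀ l : List (ℤˣ × Af), l.IsChain RR → (app s l).IsChain RR
  | [], h => h
  | [x], _ => List.IsChain.singleton _
  | x :: y :: l, h => by
      rw [List.isChain_cons_cons] at h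
      have ih := app_chain s (y :: l) h.2
      obtain ⟨z, l', e, ez⟩ := app_head s y l
      change (x :: app s (y :: l)).IsChain RR
      rw [e] at ih ⊢
      rw [List.isChain_cons_cons]
      refine ⟨?_, ih⟩
      intro hx
      rw [ez]
      exact h.1 hx

/-- the product of a list of letters -/
noncomputable def PL (l : List (ℤˣ × Af)) : KK :=
  (l.map (fun x => (t : KK) ^ (x.1 : ℤ) * of x.2)).prod

theorem PL_cons (x : ℤˣ × Af) (l : List (ℤˣ × Af)) :
    PL (x :: l) = (t : KK) ^ (x.1 : ℤ) * of x.2 * PL l := by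
  simp [PL]

theorem PL_nil : PL [] = 1 := by simp [PL]

theorem PL_app (s : Af) : ∀ l : List (ℤˣ × Af), l ≠ [] → PL (app s l) = PL l * of s
  | [], h => absurd rfl h
  | [x], _ => by
      simp [app, PL_cons, PL_nil, mul_assoc]
  | x :: y :: l, _ => by
      have ih := PL_app s (y :: l) (by simp)
      change PL (x :: app s (y :: l)) = _
      rw [PL_cons, ih, PL_cons x]
      group

/-- two reduced expressions `g l a₀ = s g l` -/
theorem two (g s s' : Af) (x : ℤˣ × Af) (l : List (ℤˣ × Af)) (hc : (x :: l).IsChain RR)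
    (h : of g * PL (x :: l) * of s' = of s * (of g * PL (x :: l))) :
    g⁻¹ * (s * g) ∈ toSubgroup (fa.range) (fq.range) (-x.1) := by
  let w₁ : NormalWord.ReducedWord Af fa.range fq.range :=
    ⟨g, app s' (x :: l), app_chain s' _ hc⟩
  let w₂ : NormalWord.ReducedWord Af fa.range fq.range := ⟨s * g, x :: l, hc⟩
  have e1 : w₁.prod ph = of g * PL (x :: l) * of s' := by
    change of g * PL (app s' (x :: l)) = _
    rw [PL_app s' _ (by simp), mul_assoc]
  have e2 : w₂.prod ph = of s * (of g * PL (x :: l)) := by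
    change of (s * g) * PL (x :: l) = _
    rw [map_mul, mul_assoc]
  have h3 := (ReducedWord.map_fst_eq_and_of_prod_eq (φ := ph) (w₁ := w₁) (w₂ := w₂)
    (by rw [e1, e2, h])).2
  obtain ⟨y, l', e, ey⟩ := app_head s' x l
  have h4 := h3 x.1 (by
    change x.1 ∈ (app s' (x :: l)).head?.map Prod.fst
    rw [e]
    simp [ey])
  exact h4

theorem exists_word (x : KK) : ∃ (g : Af) (l : List (ℤˣ × Af)), l.IsChain RR ∧
    x = of g * PL l := by
  obtain ⟨d⟩ := NormalWord.TransversalPair.nonempty Af fa.range fq.range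
  refine ⟨(x • (NormalWord.empty : NormalWord d)).head,
    (x • (NormalWord.empty : NormalWord d)).toList,
    (x • (NormalWord.empty : NormalWord d)).chain, ?_⟩
  have h := NormalWord.prod_smul ph x (NormalWord.empty : NormalWord d)
  rw [NormalWord.prod_empty, mul_one] at h
  exact h.symm

theorem a0_ne : a0 ≠ 1 := by
  intro h
  have := congrArg Af.y h
  simp [a0] at this

/-- if `x a = s x` with a translation `s` then `x` is in the base group -/
theorem key {x : KK} {s : Af} (hs : s.k = 0) (h : x * aK = of s * x) :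
    x ∈ (of.range : Subgroup KK) := by
  obtain ⟨g, l, hc, rfl⟩ := exists_word x
  have hs1 : s ≠ 1 := by
    rintro rfl
    rw [map_one, one_mul, mul_eq_left] at h
    exact a0_ne (of_inj (h.trans (map_one _).symm))
  cases l with
  | nil => exact ⟨g, by simp [PL_nil]⟩
  | cons x1 l =>
    exfalso
    obtain ⟨u1, g1⟩ := x1
    have h1 := two g s a0 (u1, g1) l hc h
    obtain ⟨c, hcdef⟩ : ∃ c, c = g⁻¹ * (s * g) := ⟨_, rfl⟩
    have hck : c.k = 0 := by rw [hcdef]; simp [hs]
    have hc1 : c ≠ 1 := by
      intro hh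
      rw [hcdef, inv_mul_eq_one] at hh
      exact hs1 (mul_eq_right.mp hh.symm)
    rw [← hcdef] at h1
    rcases Int.units_eq_one_or u1 with rfl | rfl
    · have h2 : c ∈ fq.range := by simpa using h1
      rw [mem_B] at h2
      exact hc1 (by ext <;> simp [hck, h2])
    · have h2 : c ∈ fa.range := by simpa using h1
      rw [mem_A] at h2
      obtain ⟨-, j, hj⟩ := h2
      have hj0 : j ≠ 0 := by
        rintro rfl
        exact hc1 (by ext <;> simp [hck, hj])
      have hcj : c = ⟨0, j⟩ := by ext <;> simp [hck, hj]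
      have h3 : of g1 * PL l * aK = of (⟨j, 0⟩ : Af) * (of g1 * PL l) := by
        rw [← t_conj, ← hcj]
        have e1 : of g * (t⁻¹ * (of g1 * PL l * aK)) = of g * (of c * t⁻¹ * (of g1 * PL l)) := by
          have e2 : (of g : KK) * of c = of s * of g := by
            rw [← map_mul, ← map_mul, hcdef]
            congr 1
            group
          calc of g * (t⁻¹ * (of g1 * PL l * aK)) = of g * PL ((-1, g1) :: l) * aK := by
                rw [PL_cons]; simp [mul_assoc]
            _ = of s * (of g * PL ((-1, g1) :: l)) := h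
            _ = (of s * of g) * PL ((-1, g1) :: l) := by rw [mul_assoc]
            _ = _ := by rw [← e2, PL_cons]; simp [mul_assoc]
        have e3 := mul_left_cancel e1
        calc of g1 * PL l * aK = t * (t⁻¹ * (of g1 * PL l * aK)) := by group
          _ = t * (of c * t⁻¹ * (of g1 * PL l)) := by rw [e3]
          _ = _ := by simp [mul_assoc]
      cases l with
      | nil =>
        rw [PL_nil, mul_one] at h3
        have h4 : g1 * a0 = ⟨j, 0⟩ * g1 := of_inj (by rw [map_mul, map_mul]; exact h3)
        have h5 := congrArg Af.k h4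
        simp [a0] at h5
        exact hj0 h5
      | cons x2 l =>
        obtain ⟨u2, g2⟩ := x2
        rw [List.isChain_cons_cons] at hc
        have h4 := two g1 ⟨j, 0⟩ a0 (u2, g2) l hc.2 h3
        rcases Int.units_eq_one_or u2 with rfl | rfl
        · have h5 : g1⁻¹ * (⟨j, 0⟩ * g1) ∈ fq.range := by simpa using h4
          rw [mem_B] at h5
          have h6 : (2 : ℚ) ^ (-g1.k) * g1.y * (2 ^ j - 1) = 0 := by
            have : (g1⁻¹ * (⟨j, 0⟩ * g1) : Af).y =
              (2 : ℚ) ^ (-g1.k) * g1.y * (2 ^ j - 1) := by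
              simp only [mul_y, inv_y, inv_k]
              ring
            rw [← this, h5]
          have h7 : (2 : ℚ) ^ j - 1 ≠ 0 := by
            intro h8
            have h9 : (2 : ℚ) ^ j = 2 ^ (0 : ℤ) := by rw [zpow_zero]; linarith
            exact hj0 (zpow_right_injective₀ (by norm_num) (by norm_num) h9)
          have h8 : g1.y = 0 := by
            rcases mul_eq_zero.mp h6 with h9 | h9
            · rcases mul_eq_zero.mp h9 with h10 | h10
              · exact absurd h10 (by positivity)
              · exact h10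
            · exact absurd h9 h7
          have h9 := hc.1 (by
            change g1 ∈ fq.range
            rw [mem_B]
            exact h8)
          change (-1 : ℤˣ) = 1 at h9
          exact absurd h9 (by decide)
        · have h5 : g1⁻¹ * (⟨j, 0⟩ * g1) ∈ fa.range := by simpa using h4
          rw [mem_A] at h5
          have h6 := h5.1
          simp at h6
          exact hj0 h6

theorem two_zpow_eq_one {k : ℤ} (h : (2 : ℚ) ^ k = 1) : k = 0 := by
  have h9 : (2 : ℚ) ^ k = 2 ^ (0 : ℤ) := by rw [zpow_zero]; exact h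
  exact zpow_right_injective₀ (by norm_num) (by norm_num) h9

theorem cA_mem {x : KK} (h : cA aK x = 1) : ∃ g : Af, x = of g := by
  have h1 : (x * aK * x⁻¹) * aK = of a0 * (x * aK * x⁻¹) := by
    unfold cA at h
    rw [mul_inv_eq_one, mul_inv_eq_iff_eq_mul] at h
    exact h
  obtain ⟨s, hs⟩ := key (s := a0) rfl h1
  have h2 : s * a0 = a0 * s := of_inj (by rw [map_mul, map_mul, hs]; exact h1)
  have h3 : s.k = 0 := by
    have h4 := congrArg Af.y h2
    simp [a0] at h4
    exact two_zpow_eq_one (by linarith)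
  have h4 : x * aK = of s * x := by rw [hs]; group
  obtain ⟨g, hg⟩ := key h3 h4
  exact ⟨g, hg.symm⟩

theorem of_zpow_a (n : ℤ) : (aK : KK) ^ n = of (⟨0, n⟩ : Af) := by
  have h : (fa (Multiplicative.ofAdd 1)) ^ n = fa (Multiplicative.ofAdd n) := by
    rw [← map_zpow, ← ofAdd_zsmul]
    simp
  have h1 : fa (Multiplicative.ofAdd 1) = a0 := by ext <;> simp [fa, a0]
  rw [h1] at h
  rw [aK, ← map_zpow, h]
  rfl

theorem of_zpow_q (n : ℤ) : (bK * aK * bK⁻¹ : KK) ^ n = of (⟨n, 0⟩ : Af) := by
  have h : (fq (Multiplicative.ofAdd 1)) ^ n = fq (Multiplicative.ofAdd n) := by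
    rw [← map_zpow, ← ofAdd_zsmul]
    simp
  have h1 : fq (Multiplicative.ofAdd 1) = q0 := by ext <;> simp [fq, q0]
  rw [h1] at h
  rw [conj_aK, ← map_zpow, h]
  rfl

/-- if `b g b⁻¹` satisfies the test then `g` is a translation by an integer -/
theorem test {g : Af} (h : cA aK (bK * of g * bK⁻¹) = 1) : g.k = 0 ∧ ∃ n : ℤ, g.y = n := by
  obtain ⟨g', hg'⟩ := cA_mem h
  exact mem_A.mp (mem_of_conj ⟨g', hg'.symm⟩)

theorem nonneg_of_two_zpow {k n : ℤ} (h : (2 : ℚ) ^ k = n) : 0 ≤ k := by
  by_contra hk
  have h1 : (2 : ℚ) ^ k < 1 := zpow_lt_one_of_neg₀ (by norm_num) (by omega)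
  have h2 : (0 : ℚ) < 2 ^ k := by positivity
  rw [h] at h1 h2
  have h3 : n < 1 := by exact_mod_cast h1
  have h4 : 0 < n := by exact_mod_cast h2
  omega

theorem t_K : St_K := by
  refine ⟨KK, inferInstance, aK, bK, ?_, ?_, ?_⟩
  · unfold Pool.Agent.Run7.h955.OV.Rel
    rw [conj_aK, aK, ← map_mul, ← map_inv, ← map_mul, ← map_pow]
    congr 1
    ext <;> simp [a0, q0, pow_two]
    norm_num
  · intro x h1 h2 h3
    obtain ⟨g, rfl⟩ := cA_mem h1
    have e1 : PP aK bK (of g) = of (⟨0, g.y⟩ : Af) := by
      unfold PP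
      rw [conj_aK, ← map_mul, ← map_inv, ← map_mul, ← map_inv, ← map_mul]
      congr 1
      ext
      · simp [q0]
      · simp only [mul_y, mul_k, inv_y, inv_k, q0]
        have h5 : (2 : ℚ) ^ g.k * 2 ^ (-g.k) = 1 := by
          rw [← zpow_add₀ (by norm_num)]
          simp
        have h6 : (2 : ℚ) ^ (1 + g.k + -1) = 2 ^ g.k := by
          congr 1
          ring
        rw [h6]
        simp only [mul_zero, neg_zero, add_zero, zero_add, zpow_one]
        linear_combination (-g.y) * h5
    rw [e1] at h2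
    obtain ⟨-, w, hw⟩ := test h2
    have e2 : (of g : KK) * aK * (of g)⁻¹ = of (⟨0, 2 ^ g.k⟩ : Af) := by
      rw [aK, ← map_mul, ← map_inv, ← map_mul]
      congr 1
      ext
      · simp [a0]
      · simp only [mul_y, mul_k, inv_y, a0]
        have h5 : (2 : ℚ) ^ g.k * 2 ^ (-g.k) = 1 := by
          rw [← zpow_add₀ (by norm_num)]
          simp
        have h6 : (2 : ℚ) ^ (g.k + 0) = 2 ^ g.k := by
          congr 1
          ring
        rw [h6]
        linear_combination (-g.y) * h5
    rw [e2] at h3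
    obtain ⟨-, n, hn⟩ := test h3
    simp only at hw hn
    have h7 := nonneg_of_two_zpow hn
    obtain ⟨u, hu⟩ := Int.eq_ofNat_of_zero_le h7
    refine ⟨u, w, ?_⟩
    rw [← zpow_natCast, of_zpow_q, of_zpow_a, ← map_mul]
    congr 1
    ext
    · simp [hu]
    · simp [hw]
  · intro R h
    rw [of_zpow_q] at h
    have e2 : (of (⟨R, 0⟩ : Af) : KK) * aK * (of (⟨R, 0⟩ : Af))⁻¹ = of (⟨0, 2 ^ R⟩ : Af) := by
      rw [aK, ← map_mul, ← map_inv, ← map_mul]
      congr 1
      ext <;> simp [a0]
    rw [e2] at h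
    obtain ⟨-, n, hn⟩ := test h
    exact nonneg_of_two_zpow hn

end Pool.Agent.Run7.h617.OV
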